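import Pool.Agent.Work.MP_bde882_al_red.Lie

/-!
Block A of the Hughes certificate (`MP_bde882_al`): reduction of the symmetrised products
`Sy (l_1, …, l_n)` of Lie elements to a small family.
-/

set_option autoImplicit false
set_option linter.unusedSectionVars false

namespace Pool.Agent.Work.MP_bde882_al.H93

open Finset

section Sy

variable {R : Type*} [Ring R]

/-- Sum over all orders of the product of the entries. -/
def Sy : (n : ℕ) → (Fin n → R) → R
  | 0, _ => 1
  | n + 1, l => ∑ i, l i * Sy n (fun j => l (i.succAbove j))

theorem Sy_succ (n : ℕ) (l : Fin (n + 1) → R) :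
    Sy (n + 1) l = ∑ i, l i * Sy n (fun j => l (i.succAbove j)) := rfl

theorem upd_succAbove_self {n : ℕ} (l : Fin (n + 1) → R) (i : Fin (n + 1)) (z : R) :
    (fun j => Function.update l i z (i.succAbove j)) = fun j => l (i.succAbove j) := by
  funext j
  rw [Function.update_of_ne (Fin.succAbove_ne i j)]

theorem upd_succAbove {n : ℕ} (l : Fin (n + 1) → R) (i : Fin (n + 1)) (k : Fin n) (z : R) :
    (fun j => Function.update l (i.succAbove k) z (i.succAbove j))
      = Function.update (fun j => l (i.succAbove j)) k z := by
  funext j
  by_cases h : j = k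
  · subst h; simp
  · rw [Function.update_of_ne h, Function.update_of_ne]
    intro h'
    exact h (Fin.succAbove_right_injective h')

theorem Sy_update_add (n : ℕ) (l : Fin n → R) (i : Fin n) (a b : R) :
    Sy n (Function.update l i (a + b))
      = Sy n (Function.update l i a) + Sy n (Function.update l i b) := by
  induction n with
  | zero => exact i.elim0
  | succ n ih =>
    simp only [Sy_succ]
    rw [Fin.sum_univ_succAbove _ i, Fin.sum_univ_succAbove _ i, Fin.sum_univ_succAbove _ i]
    simp only [Function.update_self, upd_succAbove_self]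
    have h : ∀ (z : R) (j : Fin n),
        Function.update l i z (i.succAbove j) * Sy n (fun k => Function.update l i z ((i.succAbove j).succAbove k))
          = l (i.succAbove j) * Sy n (fun k => Function.update l i z ((i.succAbove j).succAbove k)) := by
      intro z j
      rw [Function.update_of_ne (Fin.succAbove_ne i j)]
    simp only [h]
    have h2 : ∀ j : Fin n, ∃ k, (i.succAbove j).succAbove k = i := fun j =>
      Fin.exists_succAbove_eq (Fin.succAbove_ne i j).symm
    choose f hf using h2
    have h3 : ∀ (z : R) (j : Fin n), (fun k => Function.update l i z ((i.succAbove j).succAbove k))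
        = Function.update (fun k => l ((i.succAbove j).succAbove k)) (f j) z := by
      intro z j
      have h4 := upd_succAbove l (i.succAbove j) (f j) z
      rw [hf j] at h4
      exact h4
    simp only [h3, ih, mul_add, sum_add_distrib, add_mul]
    abel

theorem Sy_update_smul {F : Type*} [CommSemiring F] [Algebra F R] (n : ℕ) (l : Fin n → R)
    (i : Fin n) (c : F) (a : R) :
    Sy n (Function.update l i (c • a)) = c • Sy n (Function.update l i a) := by
  induction n with
  | zero => exact i.elim0
  | succ n ih =>
    simp only [Sy_succ]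
    rw [Fin.sum_univ_succAbove _ i, Fin.sum_univ_succAbove _ i]
    simp only [Function.update_self, upd_succAbove_self]
    have h : ∀ (z : R) (j : Fin n),
        Function.update l i z (i.succAbove j) * Sy n (fun k => Function.update l i z ((i.succAbove j).succAbove k))
          = l (i.succAbove j) * Sy n (fun k => Function.update l i z ((i.succAbove j).succAbove k)) := by
      intro z j
      rw [Function.update_of_ne (Fin.succAbove_ne i j)]
    simp only [h]
    have h2 : ∀ j : Fin n, ∃ k, (i.succAbove j).succAbove k = i := fun j =>
      Fin.exists_succAbove_eq (Fin.succAbove_ne i j).symm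
    choose f hf using h2
    have h3 : ∀ (z : R) (j : Fin n), (fun k => Function.update l i z ((i.succAbove j).succAbove k))
        = Function.update (fun k => l ((i.succAbove j).succAbove k)) (f j) z := by
      intro z j
      have h4 := upd_succAbove l (i.succAbove j) (f j) z
      rw [hf j] at h4
      exact h4
    simp only [h3, ih, smul_add, smul_sum, smul_mul_assoc, mul_smul_comm]

/-- Derivation property. -/
theorem Sy_deriv (δ : R →+ R) (hδ : ∀ a b, δ (a * b) = δ a * b + a * δ b) (n : ℕ)
    (l : Fin n → R) : δ (Sy n l) = ∑ j, Sy n (Function.update l j (δ (l j))) := by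
  induction n with
  | zero =>
    have h : δ (1 : R) = 0 := by
      have := hδ 1 1
      simp only [mul_one, one_mul] at this
      exact left_eq_add.1 this
    simpa [Sy] using h
  | succ n ih =>
    have h1 : δ (Sy (n + 1) l)
        = ∑ i, (δ (l i) * Sy n (fun j => l (i.succAbove j))
            + ∑ k, l i * Sy n (Function.update (fun j => l (i.succAbove j)) k (δ (l (i.succAbove k))))) := by
      rw [Sy_succ, map_sum]
      refine sum_congr rfl fun i _ => ?_
      rw [hδ, ih, mul_sum]
    have h2 : ∀ j, Sy (n + 1) (Function.update l j (δ (l j)))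
        = ∑ i, Function.update l j (δ (l j)) i
            * Sy n (fun k => Function.update l j (δ (l j)) (i.succAbove k)) := fun j => rfl
    simp only [h2]
    rw [h1, sum_comm]
    refine sum_congr rfl fun i _ => ?_
    rw [Fin.sum_univ_succAbove _ i]
    simp only [Function.update_self, upd_succAbove_self]
    congr 1
    refine sum_congr rfl fun k _ => ?_
    rw [upd_succAbove, Function.update_of_ne (Fin.succAbove_ne i k).symm]

theorem Sy_const (n : ℕ) (z : R) : Sy n (fun _ => z) = (n.factorial : R) * z ^ n := by
  induction n with
  | zero => simp [Sy]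
  | succ n ih =>
    rw [Sy_succ]
    simp only [ih, sum_const, card_univ, Fintype.card_fin, nsmul_eq_mul]
    rw [Nat.factorial_succ, Nat.cast_mul, pow_succ', mul_assoc]
    congr 1
    exact ((Nat.cast_commute n.factorial z).left_comm _).symm

end Sy

section bridge

open Pool.Agent.Work.MP_bde882_al.Red

theorem sel_ofFn {ι S : Type*} [AddCommMonoid S] (n : ℕ) (l : Fin (n + 1) → ι)
    (G : ι → List ι → S) :
    sel (List.ofFn l) G = ∑ i, G (l i) (List.ofFn (fun j => l (i.succAbove j))) := by
  induction n generalizing G with
  | zero =>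
    rw [List.ofFn_succ]
    simp [sel]
  | succ n ih =>
    rw [List.ofFn_succ]
    simp only [sel]
    rw [ih, Fin.sum_univ_succ (fun i : Fin (n + 1 + 1) =>
      G (l i) (List.ofFn (fun j => l (i.succAbove j))))]
    congr 1
    refine Finset.sum_congr rfl fun i _ => ?_
    rw [List.ofFn_succ (f := fun j => l (i.succ.succAbove j))]
    simp only [Fin.succ_succAbove_zero, Fin.succ_succAbove_succ]

variable {R W : Type*} [Ring R] [AddCommGroup W] [Module R W]

/-- The symmetrised product in terms of `syn`. -/
theorem syn_ofFn {ι : Type*} (b : ι → R) (w : W) (n : ℕ) (c : Fin n → ι) :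
    syn b w n (List.ofFn c) = Sy n (fun i => b (c i)) • w := by
  induction n with
  | zero => simp [syn, Sy]
  | succ n ih =>
    simp only [syn]
    rw [sel_ofFn, Sy_succ, sum_smul]
    refine sum_congr rfl fun i _ => ?_
    rw [ih, mul_smul]

theorem Sy_perm (n : ℕ) (l : Fin n → R) (σ : Equiv.Perm (Fin n)) :
    Sy n (fun i => l (σ i)) = Sy n l := by
  have h1 := syn_ofFn (fun x : R => x) (1 : R) n l
  have h2 := syn_ofFn (fun x : R => x) (1 : R) n (fun i => l (σ i))
  rw [smul_eq_mul, mul_one] at h1 h2
  rw [← h1, ← h2]
  exact syn_perm _ _ _ (Equiv.Perm.ofFn_comp_perm σ l)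

end bridge

section red

variable {F R : Type*} [Field F] [Ring R] [Algebra F R]

theorem Sy_update_zero (n : ℕ) (l : Fin n → R) (i : Fin n) : Sy n (Function.update l i 0) = 0 := by
  have h := Sy_update_add n l i 0 0
  rw [add_zero] at h
  exact left_eq_add.1 h

theorem Sy_mem_update (I : Submodule F R) {n : ℕ} (l : Fin n → R) (i : Fin n) (s : Set R)
    (h : ∀ z ∈ s, Sy n (Function.update l i z) ∈ I) (z : R) (hz : z ∈ Submodule.span F s) :
    Sy n (Function.update l i z) ∈ I := by
  induction hz using Submodule.span_induction with
  | mem x hx => exact h x hx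
  | zero => rw [Sy_update_zero]; exact I.zero_mem
  | add x y _ _ hx hy => rw [Sy_update_add]; exact I.add_mem hx hy
  | smul c x _ hx => rw [Sy_update_smul]; exact I.smul_mem c hx

/-- Multilinearity: it is enough to treat entries from spanning sets. -/
theorem Sy_mem_span (I : Submodule F R) (n : ℕ) (S : Fin n → Set R)
    (h : ∀ l : Fin n → R, (∀ i, l i ∈ S i) → Sy n l ∈ I) (l : Fin n → R)
    (hl : ∀ i, l i ∈ Submodule.span F (S i)) : Sy n l ∈ I := by
  classical
  have key : ∀ T : Finset (Fin n), ∀ l : Fin n → R, (∀ i ∈ T, l i ∈ Submodule.span F (S i)) →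
      (∀ i, i ∉ T → l i ∈ S i) → Sy n l ∈ I := by
    intro T
    induction T using Finset.induction_on with
    | empty =>
      intro l _ h2
      exact h l (fun i => h2 i (Finset.notMem_empty i))
    | insert a T ha ih =>
      intro l h1 h2
      have h3 : Sy n (Function.update l a (l a)) ∈ I := by
        refine Sy_mem_update I l a (S a) ?_ (l a) (h1 a (mem_insert_self a T))
        intro z hz
        refine ih _ ?_ ?_
        · intro i hi
          have hia : i ≠ a := fun e => ha (e ▸ hi)
          rw [Function.update_of_ne hia]
          exact h1 i (mem_insert_of_mem hi)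
        · intro i hi
          by_cases hia : i = a
          · subst hia; rw [Function.update_self]; exact hz
          · rw [Function.update_of_ne hia]
            exact h2 i (fun h4 => (mem_insert.1 h4).elim hia hi)
      rwa [Function.update_eq_self] at h3
  exact key univ l (fun i _ => hl i) (fun i hi => absurd (mem_univ i) hi)

/-- **Transfer lemma.**  Entries at the positions `T` may be taken equal to `w0`, when the
submodules of these entries are spanned by `w0` and its images under derivations which preserve
everything. -/
theorem Sy_transfer (I : Submodule F R) (n : ℕ) (hn : ∀ m : ℕ, 1 ≤ m → m ≤ n → (m : F) ≠ 0)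
    (K : Fin n → Submodule F R) {ι : Type*} (δ : ι → R →+ R)
    (hδ : ∀ a x y, δ a (x * y) = δ a x * y + x * δ a y) (hδI : ∀ a, ∀ r ∈ I, δ a r ∈ I)
    (hδK : ∀ a j, ∀ r ∈ K j, δ a r ∈ K j) (w0 : R) (T : Finset (Fin n))
    (hKT : ∀ j ∈ T, K j ≤ Submodule.span F (insert w0 (Set.range (fun a => δ a w0))))
    (hH : ∀ l : Fin n → R, (∀ j, j ∉ T → l j ∈ K j) → (∀ j ∈ T, l j = w0) → Sy n l ∈ I) :
    ∀ l : Fin n → R, (∀ j, l j ∈ K j) → Sy n l ∈ I := by
  classical
  induction T using Finset.induction_on with
  | empty =>
    intro l hl
    exact hH l (fun j _ => hl j) (fun j hj => absurd hj (Finset.notMem_empty j))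
  | insert i0 T hi0 ih =>
    refine ih (fun j hj => hKT j (mem_insert_of_mem hj)) ?_
    intro l h1 h2
    have h3 : Sy n (Function.update l i0 (l i0)) ∈ I := by
      refine Sy_mem_update I l i0 _ ?_ (l i0) (hKT i0 (mem_insert_self i0 T) (h1 i0 hi0))
      intro z hz
      have hw0 : Sy n (Function.update l i0 w0) ∈ I := by
        refine hH _ ?_ ?_
        · intro j hj
          rw [mem_insert, not_or] at hj
          rw [Function.update_of_ne hj.1]
          exact h1 j hj.2
        · intro j hj
          by_cases hji : j = i0
          · subst hji; rw [Function.update_self]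
          · rw [Function.update_of_ne hji]
            exact h2 j ((mem_insert.1 hj).resolve_left hji)
      rcases hz with hz | ⟨a, hz⟩
      · rw [hz]; exact hw0
      · have hz' : δ a w0 = z := hz
        have h4 := hδI a _ hw0
        rw [Sy_deriv (δ a) (hδ a)] at h4
        rw [← Finset.sum_filter_add_sum_filter_not univ (fun j => j ∈ insert i0 T)] at h4
        have h5 : ∑ j ∈ univ.filter (fun j => ¬ j ∈ insert i0 T),
            Sy n (Function.update (Function.update l i0 w0) j
              (δ a (Function.update l i0 w0 j))) ∈ I := by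
          refine I.sum_mem ?_
          intro j hj
          rw [mem_filter] at hj
          have hj2 := hj.2
          rw [mem_insert, not_or] at hj2
          refine hH _ ?_ ?_
          · intro k hk
            by_cases hkj : k = j
            · subst hkj
              rw [Function.update_self, Function.update_of_ne hj2.1]
              exact hδK a k _ (h1 k hj2.2)
            · rw [Function.update_of_ne hkj]
              rw [mem_insert, not_or] at hk
              rw [Function.update_of_ne hk.1]
              exact h1 k hk.2
          · intro k hk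
            have hkj : k ≠ j := fun e => hj.2 (e ▸ hk)
            rw [Function.update_of_ne hkj]
            by_cases hki : k = i0
            · subst hki; rw [Function.update_self]
            · rw [Function.update_of_ne hki]
              exact h2 k ((mem_insert.1 hk).resolve_left hki)
        have h6 : ∑ j ∈ univ.filter (fun j => j ∈ insert i0 T),
            Sy n (Function.update (Function.update l i0 w0) j
              (δ a (Function.update l i0 w0 j)))
            = ((insert i0 T).card : F) • Sy n (Function.update l i0 z) := by
          have h7 : ∀ j ∈ univ.filter (fun j => j ∈ insert i0 T),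
              Sy n (Function.update (Function.update l i0 w0) j
                (δ a (Function.update l i0 w0 j))) = Sy n (Function.update l i0 z) := by
            intro j hj
            rw [mem_filter] at hj
            rw [← Sy_perm n (Function.update l i0 z) (Equiv.swap i0 j)]
            congr 1
            funext k
            have hlj : Function.update l i0 w0 j = w0 := by
              by_cases hji : j = i0
              · subst hji; rw [Function.update_self]
              · rw [Function.update_of_ne hji]
                exact h2 j ((mem_insert.1 hj.2).resolve_left hji)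
            rw [hlj, hz']
            by_cases hkj : k = j
            · subst hkj
              rw [Function.update_self, Equiv.swap_apply_right, Function.update_self]
            · rw [Function.update_of_ne hkj]
              by_cases hki : k = i0
              · subst hki
                rw [Function.update_self, Equiv.swap_apply_left, Function.update_of_ne (Ne.symm hkj)]
                exact (h2 j ((mem_insert.1 hj.2).resolve_left (Ne.symm hkj))).symm
              · rw [Function.update_of_ne hki, Equiv.swap_apply_of_ne_of_ne hki hkj,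
                  Function.update_of_ne hki]
          rw [sum_congr rfl h7, sum_const, Nat.cast_smul_eq_nsmul]
          congr 1
          rw [Finset.filter_mem_eq_inter, Finset.univ_inter]
        rw [h6] at h4
        have h8 := (I.add_mem_iff_left h5).1 h4
        have h9 : ((insert i0 T).card : F) ≠ 0 := by
          refine hn _ (Finset.card_pos.2 ⟨i0, mem_insert_self i0 T⟩) ?_
          have := Finset.card_le_univ (insert i0 T)
          rwa [Fintype.card_fin] at this
        have h10 := I.smul_mem ((insert i0 T).card : F)⁻¹ h8
        rwa [smul_smul, inv_mul_cancel₀ h9, one_smul] at h10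
    rwa [Function.update_eq_self] at h3

end red

section lie

variable {R : Type*} [Ring R] {κ : Type*}

/-- The homogeneous components of the Lie algebra generated by the letters `X k`:
`LieD 1` is the span of the letters and `LieD (d + 1)` the span of the brackets `[X k, l]`,
`l ∈ LieD d`. -/
def LieD (F : Type*) [Field F] [Algebra F R] (X : κ → R) : ℕ → Submodule F R
  | 0 => ⊥
  | 1 => Submodule.span F (Set.range X)
  | d + 2 => Submodule.span F {z | ∃ k, ∃ l ∈ LieD F X (d + 1), X k * l - l * X k = z}

variable {F : Type*} [Field F] [Algebra F R]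

theorem LieD_one (X : κ → R) : LieD F X 1 = Submodule.span F (Set.range X) := rfl

theorem LieD_succ (X : κ → R) (d : ℕ) (hd : 1 ≤ d) :
    LieD F X (d + 1) = Submodule.span F {z | ∃ k, ∃ l ∈ LieD F X d, X k * l - l * X k = z} := by
  obtain ⟨e, rfl⟩ : ∃ e, d = e + 1 := ⟨d - 1, by omega⟩
  rfl

theorem bracket_mem_LieD (X : κ → R) (d : ℕ) (hd : 1 ≤ d) (k : κ) (l : R)
    (hl : l ∈ LieD F X d) : X k * l - l * X k ∈ LieD F X (d + 1) := by
  rw [LieD_succ X d hd]
  exact Submodule.subset_span ⟨k, l, hl, rfl⟩

/-- derivations mapping letters to combinations of letters preserve all components -/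
theorem deriv_mem_LieD (X : κ → R) (δ : R →ₗ[F] R)
    (hδ : ∀ a b, δ (a * b) = δ a * b + a * δ b) (hX : ∀ k, δ (X k) ∈ Submodule.span F (Set.range X))
    (d : ℕ) : ∀ r ∈ LieD F X d, δ r ∈ LieD F X d := by
  induction d with
  | zero =>
    intro r hr
    have hr0 : r = 0 := (Submodule.mem_bot F).1 hr
    rw [hr0, map_zero]
    exact Submodule.zero_mem _
  | succ d ih =>
    by_cases hd : d = 0
    · subst hd
      intro r hr
      change r ∈ Submodule.span F (Set.range X) at hr
      change δ r ∈ Submodule.span F (Set.range X)
      have h1 : Submodule.span F (Set.range X) ≤ (Submodule.span F (Set.range X)).comap δ := by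
        rw [Submodule.span_le]
        rintro _ ⟨k, rfl⟩
        exact hX k
      exact h1 hr
    · have hd1 : 1 ≤ d := Nat.one_le_iff_ne_zero.2 hd
      intro r hr
      have h1 : LieD F X (d + 1) ≤ (LieD F X (d + 1)).comap δ := by
        conv_lhs => rw [LieD_succ X d hd1]
        rw [Submodule.span_le]
        rintro _ ⟨k, l, hl, rfl⟩
        change δ (X k * l - l * X k) ∈ LieD F X (d + 1)
        have e : δ (X k * l - l * X k)
            = (δ (X k) * l - l * δ (X k)) + (X k * δ l - δ l * X k) := by
          rw [map_sub, hδ, hδ]
          abel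
        rw [e]
        refine Submodule.add_mem _ ?_ (bracket_mem_LieD X d hd1 k _ (ih l hl))
        have h2 : ∀ y ∈ Submodule.span F (Set.range X), y * l - l * y ∈ LieD F X (d + 1) := by
          intro y hy
          induction hy using Submodule.span_induction with
          | mem x hx =>
            obtain ⟨m, rfl⟩ := hx
            exact bracket_mem_LieD X d hd1 m l hl
          | zero => simp
          | add x y _ _ h3 h4 =>
            have e2 : (x + y) * l - l * (x + y) = (x * l - l * x) + (y * l - l * y) := by
              noncomm_ring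
            rw [e2]
            exact Submodule.add_mem _ h3 h4
          | smul c x _ h3 =>
            have e2 : (c • x) * l - l * (c • x) = c • (x * l - l * x) := by
              rw [smul_mul_assoc, mul_smul_comm, smul_sub]
            rw [e2]
            exact Submodule.smul_mem _ _ h3
        exact h2 _ (hX k)
      exact h1 hr

end lie

section adstep

variable {F R : Type*} [Field F] [Ring R] [Algebra F R] {κ : Type*}

theorem sum_two {n : ℕ} (f : Fin n → ℕ) (i j : Fin n) (h : j ≠ i) :
    ∑ k, f k = f i + (f j + ∑ k ∈ (univ.erase i).erase j, f k) := by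
  rw [← Finset.add_sum_erase univ f (mem_univ i),
    ← Finset.add_sum_erase (univ.erase i) f (mem_erase.2 ⟨h, mem_univ j⟩)]

/-- **Reduction to balanced degrees.** -/
theorem ad_step (X : κ → R) (I : Submodule F R) (hIX : ∀ k, ∀ r ∈ I, X k * r - r * X k ∈ I)
    (n : ℕ) (hn : 2 ≤ n) (N : ℕ)
    (hbal : ∀ d : Fin n → ℕ, (∀ i, 1 ≤ d i) → ∑ i, d i ≤ N → (∀ i, ∃ j, j ≠ i ∧ d i ≤ d j + 1) →
      ∀ l : Fin n → R, (∀ i, l i ∈ LieD F X (d i)) → Sy n l ∈ I)
    (hbig : ∀ d : Fin n → ℕ, (∀ i, 1 ≤ d i) → N < ∑ i, d i →
      ∀ l : Fin n → R, (∀ i, l i ∈ LieD F X (d i)) → Sy n l ∈ I) :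
    ∀ d : Fin n → ℕ, (∀ i, 1 ≤ d i) →
      ∀ l : Fin n → R, (∀ i, l i ∈ LieD F X (d i)) → Sy n l ∈ I := by
  have key : ∀ s : ℕ, ∀ q : ℕ, ∀ d : Fin n → ℕ, ∑ i, d i = s → ∑ i, d i * d i = q →
      (∀ i, 1 ≤ d i) → ∀ l : Fin n → R, (∀ i, l i ∈ LieD F X (d i)) → Sy n l ∈ I := by
    intro s
    induction s using Nat.strong_induction_on with
    | _ s ihs =>
      intro q
      induction q using Nat.strong_induction_on with
      | _ q ihq =>
        intro d hds hdq hd l hl
        by_cases hN : N < ∑ i, d i
        · exact hbig d hd hN l hl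
        by_cases hb : ∀ i, ∃ j, j ≠ i ∧ d i ≤ d j + 1
        · exact hbal d hd (not_lt.1 hN) hb l hl
        push Not at hb
        obtain ⟨i0, hi0⟩ := hb
        obtain ⟨j0, hj0⟩ : ∃ j0 : Fin n, j0 ≠ i0 := by
          have : Nontrivial (Fin n) := Fin.nontrivial_iff_two_le.2 hn
          exact exists_ne i0
        have hdi : 3 ≤ d i0 := by
          have h1 := hi0 j0 hj0
          have h2 := hd j0
          omega
        obtain ⟨e, he⟩ : ∃ e, d i0 = e + 1 := ⟨d i0 - 1, by omega⟩
        have he1 : 1 ≤ e := by omega
        have hli : l i0 ∈ Submodule.span F {z | ∃ k, ∃ l ∈ LieD F X e, X k * l - l * X k = z} := by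
          rw [← LieD_succ X e he1, ← he]
          exact hl i0
        have h3 : Sy n (Function.update l i0 (l i0)) ∈ I := by
          refine Sy_mem_update I l i0 _ ?_ (l i0) hli
          rintro z ⟨k, l', hl', rfl⟩
          have hA : Sy n (Function.update l i0 l') ∈ I := by
            refine ihs (∑ i, Function.update d i0 e i) ?_ _ (Function.update d i0 e) rfl rfl ?_ _ ?_
            · rw [← hds, sum_two _ i0 j0 hj0, sum_two d i0 j0 hj0, Function.update_self,
                Function.update_of_ne hj0]
              have : ∑ k ∈ (univ.erase i0).erase j0, Function.update d i0 e k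
                  = ∑ k ∈ (univ.erase i0).erase j0, d k := by
                refine sum_congr rfl fun k hk => ?_
                rw [Function.update_of_ne (mem_erase.1 (mem_erase.1 hk).2).1]
              rw [this]
              omega
            · intro i
              by_cases h : i = i0
              · subst h; rw [Function.update_self]; exact he1
              · rw [Function.update_of_ne h]; exact hd i
            · intro i
              by_cases h : i = i0
              · subst h; rw [Function.update_self, Function.update_self]; exact hl'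
              · rw [Function.update_of_ne h, Function.update_of_ne h]; exact hl i
          have hB := hIX k _ hA
          let δ : R →+ R := AddMonoidHom.mulLeft (X k) - AddMonoidHom.mulRight (X k)
          have hδa : ∀ r, δ r = X k * r - r * X k := fun r => rfl
          have hδ : ∀ a b, δ (a * b) = δ a * b + a * δ b := by
            intro a b
            rw [hδa, hδa, hδa]
            noncomm_ring
          rw [← hδa, Sy_deriv δ hδ, ← Finset.add_sum_erase univ _ (mem_univ i0)] at hB
          rw [Function.update_self, Function.update_idem, hδa l'] at hB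
          have hC : ∑ j ∈ univ.erase i0, Sy n (Function.update (Function.update l i0 l') j
              (δ (Function.update l i0 l' j))) ∈ I := by
            refine I.sum_mem ?_
            intro j hj
            have hji : j ≠ i0 := (mem_erase.1 hj).1
            have hdj := hi0 j hji
            have hrest : ∀ g : ℕ → ℕ, ∑ k ∈ (univ.erase i0).erase j,
                g (Function.update (Function.update d i0 e) j (d j + 1) k)
                = ∑ k ∈ (univ.erase i0).erase j, g (d k) := by
              intro g
              refine sum_congr rfl fun k hk => ?_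
              rw [Function.update_of_ne (mem_erase.1 hk).1,
                Function.update_of_ne (mem_erase.1 (mem_erase.1 hk).2).1]
            have hsum : ∑ i, Function.update (Function.update d i0 e) j (d j + 1) i = s := by
              have h6 := hrest (fun x => x)
              rw [← hds, sum_two _ i0 j hji, sum_two d i0 j hji, h6]
              rw [Function.update_self, Function.update_of_ne hji.symm, Function.update_self]
              omega
            have hsq : ∑ i, Function.update (Function.update d i0 e) j (d j + 1) i
                * Function.update (Function.update d i0 e) j (d j + 1) i < q := by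
              have h6 := hrest (fun x => x * x)
              rw [← hdq, sum_two (fun i => Function.update (Function.update d i0 e) j (d j + 1) i
                * Function.update (Function.update d i0 e) j (d j + 1) i) i0 j hji,
                sum_two (fun i => d i * d i) i0 j hji, h6]
              simp only [Function.update_self, Function.update_of_ne hji.symm]
              rw [he]
              nlinarith
            refine ihq _ hsq _ hsum rfl ?_ _ ?_
            · intro i
              by_cases h : i = j
              · subst h; rw [Function.update_self]; omega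
              · rw [Function.update_of_ne h]
                by_cases h' : i = i0
                · subst h'; rw [Function.update_self]; exact he1
                · rw [Function.update_of_ne h']; exact hd i
            · intro i
              by_cases h : i = j
              · subst h
                rw [Function.update_self, Function.update_self, Function.update_of_ne hji]
                exact bracket_mem_LieD X _ (hd i) k _ (hl i)
              · rw [Function.update_of_ne h, Function.update_of_ne h]
                by_cases h' : i = i0
                · subst h'; rw [Function.update_self, Function.update_self]; exact hl'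
                · rw [Function.update_of_ne h', Function.update_of_ne h']; exact hl i
          exact (I.add_mem_iff_left hC).1 hB
        rwa [Function.update_eq_self] at h3
  intro d hd l hl
  exact key _ _ d rfl rfl hd l hl

end adstep

section estep

variable {F R : Type*} [Field F] [Ring R] [Algebra F R]

/-- The reduced spaces: only the letter `X 0` in degree `1`, only `[X 1, X 2]` in degree `2`. -/
def KD (F : Type*) [Field F] [Algebra F R] (X : Fin 3 → R) (d : ℕ) : Submodule F R :=
  if d = 1 then Submodule.span F {X 0}
  else if d = 2 then Submodule.span F {X 1 * X 2 - X 2 * X 1}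
  else LieD F X d

/-- **Reduction by `sl_3`.** -/
theorem e_step (X : Fin 3 → R) (D : Fin 3 → Fin 3 → R →ₗ[F] R)
    (hD : ∀ i j, i ≠ j → ∀ a b, D i j (a * b) = D i j a * b + a * D i j b)
    (hDX : ∀ i j, i ≠ j → ∀ k, D i j (X k) = if k = j then X i else 0)
    (I : Submodule F R) (hID : ∀ i j, i ≠ j → ∀ r ∈ I, D i j r ∈ I)
    (n : ℕ) (hn : ∀ m : ℕ, 1 ≤ m → m ≤ n → (m : F) ≠ 0) (d : Fin n → ℕ)
    (hH : ∀ l : Fin n → R, (∀ i, l i ∈ KD F X (d i)) → Sy n l ∈ I) :
    ∀ l : Fin n → R, (∀ i, l i ∈ LieD F X (d i)) → Sy n l ∈ I := by
  classical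
  have hDXs : ∀ i j, i ≠ j → ∀ k, D i j (X k) ∈ Submodule.span F (Set.range X) := by
    intro i j hij k
    rw [hDX i j hij]
    split_ifs
    · exact Submodule.subset_span ⟨i, rfl⟩
    · exact Submodule.zero_mem _
  have hDL : ∀ i j, i ≠ j → ∀ d, ∀ r ∈ LieD F X d, D i j r ∈ LieD F X d :=
    fun i j hij d => deriv_mem_LieD X (D i j) (hD i j hij) (hDXs i j hij) d
  -- degree 2
  have h2 : ∀ l : Fin n → R, (∀ i, l i ∈ (if d i = 1 then Submodule.span F {X 0}
      else LieD F X (d i))) → Sy n l ∈ I := by
    refine Sy_transfer I n hn (fun i => if d i = 1 then Submodule.span F {X 0}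
      else LieD F X (d i)) (ι := Fin 2)
      (fun a => if a = 0 then (D 0 1).toAddMonoidHom else (D 0 2).toAddMonoidHom)
      ?_ ?_ ?_ (X 1 * X 2 - X 2 * X 1) (univ.filter (fun i => d i = 2)) ?_ ?_
    · intro a x y
      fin_cases a
      · exact hD 0 1 (by decide) x y
      · exact hD 0 2 (by decide) x y
    · intro a r hr
      fin_cases a
      · exact hID 0 1 (by decide) r hr
      · exact hID 0 2 (by decide) r hr
    · intro a j r hr
      have hk : ∀ m : Fin 3, m ≠ 0 → ∀ r ∈ (if d j = 1 then Submodule.span F {X 0}
          else LieD F X (d j)), D 0 m r ∈ (if d j = 1 then Submodule.span F {X 0}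
          else LieD F X (d j)) := by
        intro m hm r hr
        by_cases h1 : d j = 1
        · rw [if_pos h1] at hr ⊢
          obtain ⟨c, rfl⟩ := Submodule.mem_span_singleton.1 hr
          rw [map_smul, hDX 0 m (Ne.symm hm), if_neg (Ne.symm hm), smul_zero]
          exact Submodule.zero_mem _
        · rw [if_neg h1] at hr ⊢
          exact hDL 0 m (Ne.symm hm) _ r hr
      fin_cases a
      · exact hk 1 (by decide) r hr
      · exact hk 2 (by decide) r hr
    · intro j hj
      have hj2 : d j = 2 := (mem_filter.1 hj).2
      rw [if_neg (by omega), hj2]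
      have e1 : D 0 1 (X 1 * X 2 - X 2 * X 1) = X 0 * X 2 - X 2 * X 0 := by
        rw [map_sub, hD 0 1 (by decide), hD 0 1 (by decide), hDX 0 1 (by decide),
          hDX 0 1 (by decide), if_pos rfl, if_neg (by decide)]
        noncomm_ring
      have e2 : D 0 2 (X 1 * X 2 - X 2 * X 1) = X 1 * X 0 - X 0 * X 1 := by
        rw [map_sub, hD 0 2 (by decide), hD 0 2 (by decide), hDX 0 2 (by decide),
          hDX 0 2 (by decide), if_pos rfl, if_neg (by decide)]
        noncomm_ring
      set S := Submodule.span F (insert (X 1 * X 2 - X 2 * X 1) (Set.range (fun a : Fin 2 =>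
        (if a = 0 then (D 0 1).toAddMonoidHom else (D 0 2).toAddMonoidHom)
          (X 1 * X 2 - X 2 * X 1)))) with hS
      have m0 : X 1 * X 2 - X 2 * X 1 ∈ S := Submodule.subset_span (Set.mem_insert _ _)
      have m1 : X 0 * X 2 - X 2 * X 0 ∈ S := by
        refine Submodule.subset_span (Set.mem_insert_of_mem _ ⟨0, ?_⟩)
        exact e1
      have m2 : X 1 * X 0 - X 0 * X 1 ∈ S := by
        refine Submodule.subset_span (Set.mem_insert_of_mem _ ⟨1, ?_⟩)
        exact e2
      have m3 : ∀ i k : Fin 3, X i * X k - X k * X i ∈ S := by
        intro i k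
        have n0 := S.neg_mem m0
        have n1 := S.neg_mem m1
        have n2 := S.neg_mem m2
        rw [neg_sub] at n0 n1 n2
        have z0 : ∀ a : R, a - a ∈ S := fun a => by rw [sub_self]; exact S.zero_mem
        match i, k with
        | 0, 0 => exact z0 _
        | 0, 1 => exact n2
        | 0, 2 => exact m1
        | 1, 0 => exact m2
        | 1, 1 => exact z0 _
        | 1, 2 => exact m0
        | 2, 0 => exact n1
        | 2, 1 => exact n0
        | 2, 2 => exact z0 _
      rw [LieD_succ X 1 le_rfl, Submodule.span_le]
      rintro _ ⟨k, l, hl, rfl⟩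
      change X k * l - l * X k ∈ S
      change l ∈ Submodule.span F (Set.range X) at hl
      induction hl using Submodule.span_induction with
      | mem x hx =>
        obtain ⟨m, rfl⟩ := hx
        exact m3 k m
      | zero => simp
      | add x y _ _ h3 h4 =>
        have e3 : X k * (x + y) - (x + y) * X k
            = (X k * x - x * X k) + (X k * y - y * X k) := by noncomm_ring
        rw [e3]
        exact S.add_mem h3 h4
      | smul c x _ h3 =>
        have e3 : X k * (c • x) - (c • x) * X k = c • (X k * x - x * X k) := by
          rw [smul_mul_assoc, mul_smul_comm, smul_sub]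
        rw [e3]
        exact S.smul_mem _ h3
    · intro l h1 h3
      refine hH l ?_
      intro i
      unfold KD
      by_cases hi1 : d i = 1
      · rw [if_pos hi1]
        have := h1 i (by rw [mem_filter]; omega)
        rwa [if_pos hi1] at this
      · rw [if_neg hi1]
        by_cases hi2 : d i = 2
        · rw [if_pos hi2, h3 i (mem_filter.2 ⟨mem_univ i, hi2⟩)]
          exact Submodule.mem_span_singleton_self _
        · rw [if_neg hi2]
          have := h1 i (by rw [mem_filter]; exact fun h => hi2 h.2)
          rwa [if_neg hi1] at this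
  -- degree 1
  refine Sy_transfer I n hn (fun i => LieD F X (d i)) (ι := Fin 2)
      (fun a => if a = 0 then (D 1 0).toAddMonoidHom else (D 2 0).toAddMonoidHom)
      ?_ ?_ ?_ (X 0) (univ.filter (fun i => d i = 1)) ?_ ?_
  · intro a x y
    fin_cases a
    · exact hD 1 0 (by decide) x y
    · exact hD 2 0 (by decide) x y
  · intro a r hr
    fin_cases a
    · exact hID 1 0 (by decide) r hr
    · exact hID 2 0 (by decide) r hr
  · intro a j r hr
    fin_cases a
    · exact hDL 1 0 (by decide) _ r hr
    · exact hDL 2 0 (by decide) _ r hr
  · intro j hj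
    have hj1 : d j = 1 := (mem_filter.1 hj).2
    simp only [hj1]
    rw [LieD_one, Submodule.span_le]
    rintro _ ⟨k, rfl⟩
    have e1 : D 1 0 (X 0) = X 1 := by rw [hDX 1 0 (by decide), if_pos rfl]
    have e2 : D 2 0 (X 0) = X 2 := by rw [hDX 2 0 (by decide), if_pos rfl]
    fin_cases k
    · exact Submodule.subset_span (Set.mem_insert _ _)
    · exact Submodule.subset_span (Set.mem_insert_of_mem _ ⟨0, e1⟩)
    · exact Submodule.subset_span (Set.mem_insert_of_mem _ ⟨1, e2⟩)
  · intro l h1 h3
    refine h2 l ?_
    intro i
    by_cases hi1 : d i = 1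
    · rw [if_pos hi1, h3 i (mem_filter.2 ⟨mem_univ i, hi1⟩)]
      exact Submodule.mem_span_singleton_self _
    · rw [if_neg hi1]
      exact h1 i (by rw [mem_filter]; exact fun h => hi1 h.2)

end estep

section main

variable {F R : Type*} [Field F] [Ring R] [Algebra F R]

/-- **Block A.**  All symmetrised products of `n` Lie elements lie in `I` as soon as those of the
balanced reduced family do. -/
theorem red_main (X : Fin 3 → R) (D : Fin 3 → Fin 3 → R →ₗ[F] R)
    (hD : ∀ i j, i ≠ j → ∀ a b, D i j (a * b) = D i j a * b + a * D i j b)
    (hDX : ∀ i j, i ≠ j → ∀ k, D i j (X k) = if k = j then X i else 0)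
    (I : Submodule F R) (hIX : ∀ k, ∀ r ∈ I, X k * r - r * X k ∈ I)
    (hID : ∀ i j, i ≠ j → ∀ r ∈ I, D i j r ∈ I)
    (n : ℕ) (hn2 : 2 ≤ n) (hn : ∀ m : ℕ, 1 ≤ m → m ≤ n → (m : F) ≠ 0) (N : ℕ)
    (hbase : ∀ d : Fin n → ℕ, (∀ i, 1 ≤ d i) → ∑ i, d i ≤ N →
      (∀ i, ∃ j, j ≠ i ∧ d i ≤ d j + 1) →
      ∀ l : Fin n → R, (∀ i, l i ∈ KD F X (d i)) → Sy n l ∈ I)
    (hbig : ∀ d : Fin n → ℕ, (∀ i, 1 ≤ d i) → N < ∑ i, d i →
      ∀ l : Fin n → R, (∀ i, l i ∈ LieD F X (d i)) → Sy n l ∈ I) :
    ∀ d : Fin n → ℕ, (∀ i, 1 ≤ d i) →
      ∀ l : Fin n → R, (∀ i, l i ∈ LieD F X (d i)) → Sy n l ∈ I :=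
  ad_step X I hIX n hn2 N
    (fun d hd1 hdN hb => e_step X D hD hDX I hID n hn d (hbase d hd1 hdN hb)) hbig

/-- powers of sums of homogeneous Lie elements -/
theorem pow_mem_of_Sy (X : Fin 3 → R) (I : Submodule F R) (n : ℕ) (hn : (n.factorial : F) ≠ 0)
    (h : ∀ d : Fin n → ℕ, (∀ i, 1 ≤ d i) →
      ∀ l : Fin n → R, (∀ i, l i ∈ LieD F X (d i)) → Sy n l ∈ I) (z : R)
    (hz : z ∈ ⨆ d : ℕ, LieD F X (d + 1)) : z ^ n ∈ I := by
  have h1 : Sy n (fun _ => z) ∈ I := by
    refine Sy_mem_span I n (fun _ => ⋃ d : ℕ, (LieD F X (d + 1) : Set R)) ?_ _ ?_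
    · intro l hl
      have h2 : ∀ i, ∃ d : ℕ, l i ∈ LieD F X (d + 1) := fun i => by
        simpa using hl i
      choose d hd using h2
      exact h (fun i => d i + 1) (fun i => by omega) l hd
    · intro _
      rw [Submodule.span_iUnion]
      simpa using hz
  rw [Sy_const] at h1
  have h2 : (n.factorial : R) * z ^ n = (n.factorial : F) • z ^ n := by
    rw [Nat.cast_smul_eq_nsmul, nsmul_eq_mul]
  rw [h2] at h1
  have h3 := I.smul_mem (n.factorial : F)⁻¹ h1
  rwa [smul_smul, inv_mul_cancel₀ hn, one_smul] at h3

/-- balanced degrees are small -/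
theorem balanced_le (d : Fin 6 → ℕ) (h1 : ∀ i, 1 ≤ d i) (hN : ∑ i, d i ≤ 18)
    (hb : ∀ i, ∃ j, j ≠ i ∧ d i ≤ d j + 1) (i : Fin 6) : d i ≤ 7 := by
  obtain ⟨j, hji, hj⟩ := hb i
  by_contra hlt
  have h2 := sum_two d i j hji
  have h3 : 4 ≤ ∑ k ∈ (univ.erase i).erase j, d k := by
    have h4 : ((univ.erase i).erase j : Finset (Fin 6)).card = 4 := by
      rw [card_erase_of_mem (mem_erase.2 ⟨hji, mem_univ j⟩), card_erase_of_mem (mem_univ i),
        card_univ, Fintype.card_fin]
    calc 4 = ∑ k ∈ (univ.erase i).erase j, 1 := by rw [sum_const, h4]; rfl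
      _ ≤ _ := sum_le_sum fun k _ => h1 k
  omega

/-- From the reduced spaces to basis elements with increasing indices. -/
theorem base_of_sorted (X : Fin 3 → R) (I : Submodule F R) {ι : Type*} [LinearOrder ι]
    (b : ι → R) (deg : ι → ℕ) (hdeg : Monotone deg)
    (hspan : ∀ d, 1 ≤ d → d ≤ 7 → KD F X d ≤ Submodule.span F (b '' {i | deg i = d}))
    (hchk : ∀ c : Fin 6 → ι, Monotone c → (∀ i, 1 ≤ deg (c i)) → ∑ i, deg (c i) ≤ 18 →
      deg (c 5) ≤ deg (c 4) + 1 → Sy 6 (fun i => b (c i)) ∈ I)
    (d : Fin 6 → ℕ) (h1 : ∀ i, 1 ≤ d i) (hN : ∑ i, d i ≤ 18)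
    (hb : ∀ i, ∃ j, j ≠ i ∧ d i ≤ d j + 1)
    (l : Fin 6 → R) (hl : ∀ i, l i ∈ KD F X (d i)) : Sy 6 l ∈ I := by
  refine Sy_mem_span I 6 (fun i => b '' {k | deg k = d i}) ?_ l ?_
  · intro l hl
    choose c hc hcl using hl
    have hl' : l = fun i => b (c i) := funext fun i => (hcl i).symm
    rw [hl', ← Sy_perm 6 (fun i => b (c i)) (Tuple.sort c)]
    have hmono : Monotone (fun i => c (Tuple.sort c i)) := Tuple.monotone_sort c
    have hdc : ∀ i, deg (c i) = d i := fun i => hc i
    refine hchk (fun i => c (Tuple.sort c i)) hmono ?_ ?_ ?_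
    · intro i
      simp only [hdc]
      exact h1 _
    · simp only [hdc]
      rw [Equiv.sum_comp (Tuple.sort c) d]
      exact hN
    · obtain ⟨j, hj1, hj2⟩ := hb (Tuple.sort c 5)
      simp only [hdc]
      refine hj2.trans (Nat.add_le_add_right ?_ 1)
      obtain ⟨k, rfl⟩ := (Tuple.sort c).surjective j
      have hk5 : k ≠ 5 := fun h => hj1 (h ▸ rfl)
      have hk4 : k ≤ 4 := by
        rw [Fin.le_def]
        have := Fin.val_ne_of_ne hk5
        have h5 : ((5 : Fin 6) : ℕ) = 5 := rfl
        have h4 : ((4 : Fin 6) : ℕ) = 4 := rfl
        omega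
      rw [← hdc, ← hdc]
      exact hdeg (hmono hk4)
  · intro i
    exact hspan (d i) (h1 i) (balanced_le d h1 hN hb i) (hl i)

end main

section right

variable {R : Type*} [Ring R]

theorem sum_swap_pairs {S : Type*} [AddCommMonoid S] (n : ℕ)
    (G : Fin (n + 2) → Fin (n + 1) → S) :
    ∑ k, ∑ m, G k m = ∑ i : Fin (n + 2), ∑ j : Fin (n + 1), G (i.succAbove j) (j.predAbove i) := by
  rw [← Finset.sum_product', ← Finset.sum_product']
  let f : Fin (n + 2) × Fin (n + 1) → Fin (n + 2) × Fin (n + 1) :=
    fun x => (x.1.succAbove x.2, x.2.predAbove x.1)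
  have hf : Function.Involutive f := by
    rintro ⟨i, j⟩
    change ((i.succAbove j).succAbove (j.predAbove i), (j.predAbove i).predAbove (i.succAbove j))
      = (i, j)
    rw [Fin.succAbove_succAbove_predAbove, Fin.predAbove_predAbove_succAbove]
  exact (Equiv.sum_comp (Function.Involutive.toPerm f hf) (fun x => G x.1 x.2)).symm

/-- recursion on the last factor -/
theorem Sy_succ_right (n : ℕ) (l : Fin (n + 1) → R) :
    Sy (n + 1) l = ∑ i, Sy n (fun j => l (i.succAbove j)) * l i := by
  induction n with
  | zero => simp [Sy]
  | succ n ih =>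
    have h1 : Sy (n + 1 + 1) l = ∑ i : Fin (n + 2), ∑ j : Fin (n + 1),
        l i * (Sy n (fun k => l (i.succAbove (j.succAbove k))) * l (i.succAbove j)) := by
      rw [Sy_succ]
      refine sum_congr rfl fun i _ => ?_
      rw [ih, mul_sum]
    have h2 : ∑ k : Fin (n + 2), Sy (n + 1) (fun j => l (k.succAbove j)) * l k
        = ∑ k : Fin (n + 2), ∑ m : Fin (n + 1),
          l (k.succAbove m) * Sy n (fun j => l (k.succAbove (m.succAbove j))) * l k := by
      refine sum_congr rfl fun k _ => ?_
      rw [Sy_succ, sum_mul]
    rw [h2, sum_swap_pairs, h1]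
    refine sum_congr rfl fun i _ => sum_congr rfl fun j _ => ?_
    rw [Fin.succAbove_succAbove_predAbove, mul_assoc]
    simp only [Fin.succAbove_succAbove_succAbove_predAbove]

/-- anti-automorphisms -/
theorem Sy_star [StarRing R] (n : ℕ) (l : Fin n → R) : star (Sy n l) = Sy n (fun i => star (l i)) := by
  induction n with
  | zero => simp [Sy]
  | succ n ih =>
    rw [Sy_succ_right n (fun i => star (l i)), Sy_succ, star_sum]
    refine sum_congr rfl fun i _ => ?_
    rw [star_mul, ih]

end right

end Pool.Agent.Work.MP_bde882_al.H93
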