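import Pool.Agent.Work.MP_bde882_al_h64.OpsE
import Pool.Agent.Work.MP_bde882_al_h64.LieClosed
import Pool.Agent.Work.MP_bde882_al_h93.RedSym

/-!
Block A, concrete instance: functions on words, with the reversal step.
-/

set_option autoImplicit false
set_option linter.unusedSectionVars false

namespace Pool.Agent.Work.MP_bde882_al.H93

open Finset Pool.Agent.Work.MP_bde882_al.Red

section general

variable {F R S : Type*} [Field F] [Ring R] [Algebra F R] [Ring S] [Algebra F S]

theorem Sy_smul (n : ℕ) (c : Fin n → F) (l : Fin n → R) :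
    Sy n (fun i => c i • l i) = (∏ i, c i) • Sy n l := by
  induction n with
  | zero => simp [Sy]
  | succ n ih =>
    rw [Sy_succ, Sy_succ, smul_sum]
    refine sum_congr rfl fun i _ => ?_
    rw [ih (fun j => c (i.succAbove j)) (fun j => l (i.succAbove j)), smul_mul_smul_comm,
      ← Fin.prod_univ_succAbove]

theorem Sy_map (φ : R →ₐ[F] S) (n : ℕ) (l : Fin n → R) :
    φ (Sy n l) = Sy n (fun i => φ (l i)) := by
  induction n with
  | zero => simp [Sy]
  | succ n ih =>
    rw [Sy_succ, Sy_succ, map_sum]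
    refine sum_congr rfl fun i _ => ?_
    rw [map_mul, ih]

theorem LieD_map {κ : Type*} (φ : R →ₐ[F] S) (X : κ → R) (Y : κ → S) (hXY : ∀ k, φ (X k) = Y k)
    (d : ℕ) : ∀ r ∈ LieD F Y d, ∃ a ∈ LieD F X d, φ a = r := by
  induction d with
  | zero =>
    intro r hr
    exact ⟨0, Submodule.zero_mem _, by rw [map_zero]; exact ((Submodule.mem_bot F).1 hr).symm⟩
  | succ d ih =>
    by_cases hd : d = 0
    · subst hd
      intro r hr
      change r ∈ Submodule.span F (Set.range Y) at hr
      have h1 : Submodule.span F (Set.range Y) ≤ (Submodule.span F (Set.range X)).map φ.toLinearMap := by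
        rw [Submodule.span_le]
        rintro _ ⟨k, rfl⟩
        exact ⟨X k, Submodule.subset_span ⟨k, rfl⟩, hXY k⟩
      obtain ⟨a, ha, ha2⟩ := h1 hr
      exact ⟨a, ha, ha2⟩
    · have hd1 : 1 ≤ d := Nat.one_le_iff_ne_zero.2 hd
      intro r hr
      rw [LieD_succ Y d hd1] at hr
      have h1 : Submodule.span F {z | ∃ k, ∃ l ∈ LieD F Y d, Y k * l - l * Y k = z}
          ≤ (LieD F X (d + 1)).map φ.toLinearMap := by
        rw [Submodule.span_le]
        rintro _ ⟨k, l, hl, rfl⟩
        obtain ⟨a, ha, rfl⟩ := ih l hl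
        refine ⟨X k * a - a * X k, bracket_mem_LieD X d hd1 k a ha, ?_⟩
        change φ (X k * a - a * X k) = _
        rw [map_sub, map_mul, map_mul, hXY]
      obtain ⟨a, ha, ha2⟩ := h1 hr
      exact ⟨a, ha, ha2⟩

end general

section words

variable {p : ℕ} [Fact p.Prime]

/-- the product of the letters of a word in the free algebra -/
def wd (p : ℕ) (w : List (Fin 3)) : FreeAlgebra (ZMod p) (Fin 3) :=
  (w.map (FreeAlgebra.ι (ZMod p))).prod

/-- span of the words of length `n` -/
def homog (p n : ℕ) : Submodule (ZMod p) (FreeAlgebra (ZMod p) (Fin 3)) :=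
  Submodule.span (ZMod p) {x | ∃ w : List (Fin 3), w.length = n ∧ wd p w = x}

/-- the free algebra acts on functions on words -/
noncomputable def ev (p : ℕ) : FreeAlgebra (ZMod p) (Fin 3) →ₐ[ZMod p] Module.End (ZMod p) (Fn p) :=
  FreeAlgebra.lift (ZMod p) (Xop p)

theorem ev_ι (k : Fin 3) : ev p (FreeAlgebra.ι (ZMod p) k) = Xop p k := by
  unfold ev
  rw [FreeAlgebra.lift_ι_apply]

theorem ev_wd (w : List (Fin 3)) : ev p (wd p w) = (w.map (Xop p)).prod := by
  unfold wd
  rw [map_list_prod, List.map_map]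
  congr 1
  refine List.map_congr_left ?_
  intro k _
  exact ev_ι k

theorem ev_wd_apply (w b : List (Fin 3)) (G : Fn p) (u : List (Fin 3)) :
    (ev p (wd p w) ((b.map (Xop p)).prod G)) u = G (u ++ w ++ b) := by
  rw [ev_wd, Xop_prod, Xop_prod]

theorem wd_append (u v : List (Fin 3)) : wd p (u ++ v) = wd p u * wd p v := by
  unfold wd
  rw [List.map_append, List.prod_append]

theorem homog_mul (m n : ℕ) (a b : FreeAlgebra (ZMod p) (Fin 3)) (ha : a ∈ homog p m)
    (hb : b ∈ homog p n) : a * b ∈ homog p (m + n) := by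
  unfold homog at ha hb
  induction ha using Submodule.span_induction with
  | mem x hx =>
    obtain ⟨u, hu, rfl⟩ := hx
    induction hb using Submodule.span_induction with
    | mem y hy =>
      obtain ⟨v, hv, rfl⟩ := hy
      rw [← wd_append]
      exact Submodule.subset_span ⟨u ++ v, by rw [List.length_append, hu, hv], rfl⟩
    | zero => rw [mul_zero]; exact Submodule.zero_mem _
    | add x y _ _ h1 h2 => rw [mul_add]; exact Submodule.add_mem _ h1 h2
    | smul c x _ h1 => rw [mul_smul_comm]; exact Submodule.smul_mem _ _ h1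
  | zero => rw [zero_mul]; exact Submodule.zero_mem _
  | add x y _ _ h1 h2 => rw [add_mul]; exact Submodule.add_mem _ h1 h2
  | smul c x _ h1 => rw [smul_mul_assoc]; exact Submodule.smul_mem _ _ h1

theorem LieD_homog (d : ℕ) :
    LieD (ZMod p) (FreeAlgebra.ι (ZMod p) : Fin 3 → _) d ≤ homog p d := by
  induction d with
  | zero => exact bot_le
  | succ d ih =>
    by_cases hd : d = 0
    · subst hd
      rw [LieD_one, Submodule.span_le]
      rintro _ ⟨k, rfl⟩
      exact Submodule.subset_span ⟨[k], rfl, by simp [wd]⟩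
    · have hd1 : 1 ≤ d := Nat.one_le_iff_ne_zero.2 hd
      rw [LieD_succ _ d hd1, Submodule.span_le]
      rintro _ ⟨k, l, hl, rfl⟩
      have hk : FreeAlgebra.ι (ZMod p) k ∈ homog p 1 :=
        Submodule.subset_span ⟨[k], rfl, by simp [wd]⟩
      refine Submodule.sub_mem _ ?_ (homog_mul d 1 _ _ (ih hl) hk)
      rw [add_comm d 1]
      exact homog_mul 1 d _ _ hk (ih hl)

theorem Sy_homog (n : ℕ) (d : Fin n → ℕ) (l : Fin n → FreeAlgebra (ZMod p) (Fin 3))
    (h : ∀ i, l i ∈ homog p (d i)) : Sy n l ∈ homog p (∑ i, d i) := by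
  induction n with
  | zero =>
    simp only [univ_eq_empty, sum_empty]
    exact Submodule.subset_span ⟨[], rfl, rfl⟩
  | succ n ih =>
    rw [Sy_succ]
    refine Submodule.sum_mem _ ?_
    intro i _
    rw [Fin.sum_univ_succAbove _ i]
    exact homog_mul _ _ _ _ (h i) (ih (fun j => d (i.succAbove j)) _ (fun j => h _))

theorem star_wd (w : List (Fin 3)) : star (wd p w) = wd p w.reverse := by
  unfold wd
  induction w with
  | nil => simp
  | cons a w ih =>
    rw [List.map_cons, List.prod_cons, star_mul, ih, FreeAlgebra.star_ι, List.reverse_cons,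
      List.map_append, List.prod_append]
    simp

theorem star_smul' (c : ZMod p) (x : FreeAlgebra (ZMod p) (Fin 3)) :
    star (c • x) = c • star x := by
  rw [Algebra.smul_def, star_mul, FreeAlgebra.star_algebraMap, Algebra.smul_def,
    ← Algebra.commutes]

theorem star_LieD (d : ℕ) : ∀ a ∈ LieD (ZMod p) (FreeAlgebra.ι (ZMod p) : Fin 3 → _) d,
    star a = ((-1 : ZMod p) ^ (d + 1)) • a := by
  induction d with
  | zero =>
    intro a ha
    have h0 : a = 0 := (Submodule.mem_bot _).1 ha
    rw [h0, star_zero, smul_zero]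
  | succ d ih =>
    by_cases hd : d = 0
    · subst hd
      intro a ha
      rw [LieD_one] at ha
      rw [show ((-1 : ZMod p) ^ (0 + 1 + 1)) = 1 by norm_num, one_smul]
      induction ha using Submodule.span_induction with
      | mem x hx => obtain ⟨k, rfl⟩ := hx; exact FreeAlgebra.star_ι k
      | zero => exact star_zero _
      | add x y _ _ h1 h2 => rw [star_add, h1, h2]
      | smul c x _ h1 => rw [star_smul', h1]
    · have hd1 : 1 ≤ d := Nat.one_le_iff_ne_zero.2 hd
      intro a ha
      rw [LieD_succ _ d hd1] at ha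
      induction ha using Submodule.span_induction with
      | mem x hx =>
        obtain ⟨k, l, hl, rfl⟩ := hx
        rw [star_sub, star_mul, star_mul, FreeAlgebra.star_ι, ih l hl, smul_mul_assoc,
          mul_smul_comm, ← smul_sub, pow_succ _ (d + 1), mul_neg_one, neg_smul, ← smul_neg,
          neg_sub]
      | zero => rw [star_zero, smul_zero]
      | add x y _ _ h1 h2 => rw [star_add, h1, h2, smul_add]
      | smul c x _ h1 => rw [star_smul', h1, smul_comm]

/-- values of homogeneous elements at words of the wrong length -/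
theorem ev_apply_eq_zero (G : Fn p) (N : ℕ) (hlen : ∀ v, v.length ≠ N → G v = 0) (n : ℕ)
    (a : FreeAlgebra (ZMod p) (Fin 3)) (ha : a ∈ homog p n) (u b : List (Fin 3))
    (h : u.length + n + b.length ≠ N) : (ev p a ((b.map (Xop p)).prod G)) u = 0 := by
  unfold homog at ha
  induction ha using Submodule.span_induction with
  | mem x hx =>
    obtain ⟨w, hw, rfl⟩ := hx
    rw [ev_wd_apply]
    apply hlen
    rw [List.length_append, List.length_append, hw]
    exact h
  | zero => rw [map_zero]; rfl
  | add x y _ _ h1 h2 =>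
    rw [map_add, LinearMap.add_apply, Pi.add_apply, h1, h2, add_zero]
  | smul c x _ h1 =>
    rw [map_smul, LinearMap.smul_apply, Pi.smul_apply, h1, smul_zero]

/-- reversal -/
theorem ev_apply_star (G : Fn p) (n : ℕ)
    (a : FreeAlgebra (ZMod p) (Fin 3)) (ha : a ∈ homog p n) (u b : List (Fin 3)) :
    (ev p a ((b.map (Xop p)).prod (fun w => G w.reverse))) u
      = (ev p (star a) ((u.reverse.map (Xop p)).prod G)) b.reverse := by
  unfold homog at ha
  induction ha using Submodule.span_induction with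
  | mem x hx =>
    obtain ⟨w, hw, rfl⟩ := hx
    rw [ev_wd_apply, star_wd, ev_wd_apply, List.reverse_append, List.reverse_append,
      List.append_assoc]
  | zero => rw [star_zero, map_zero]; rfl
  | add x y _ _ h1 h2 =>
    rw [star_add, map_add, map_add, LinearMap.add_apply, LinearMap.add_apply, Pi.add_apply,
      Pi.add_apply, h1, h2]
  | smul c x _ h1 =>
    rw [star_smul', map_smul, map_smul, LinearMap.smul_apply, LinearMap.smul_apply, Pi.smul_apply,
      Pi.smul_apply, h1]

/-- **Reversal step.**  Only short translates have to be tested. -/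
theorem mem_IF_of_half (G : Fn p) (N : ℕ) (hrev : ∀ v, G v.reverse = G v)
    (hlen : ∀ v, v.length ≠ N → G v = 0) (n : ℕ) (a : FreeAlgebra (ZMod p) (Fin 3))
    (ha : a ∈ homog p n) (c : ZMod p) (hstar : star a = c • a)
    (hchk : ∀ v : List (Fin 3), 2 * v.length + n ≤ N → ∀ u : List (Fin 3),
      u.length + n + v.length = N → (ev p a ((v.map (Xop p)).prod G)) u = 0) :
    ev p a ∈ IF G := by
  rw [mem_IF_iff]
  intro u b
  by_cases h : u.length + n + b.length = N
  · by_cases h2 : 2 * b.length + n ≤ N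
    · exact hchk b h2 u h
    · have h3 := ev_apply_star G n a ha u b
      have h4 : (fun w => G w.reverse) = G := funext hrev
      rw [h4, hstar, map_smul, LinearMap.smul_apply, Pi.smul_apply,
        hchk u.reverse (by rw [List.length_reverse]; omega) b.reverse
          (by rw [List.length_reverse, List.length_reverse]; omega), smul_zero] at h3
      exact h3
  · exact ev_apply_eq_zero G N hlen n a ha u b h

/-- **Block A, final form.** -/
theorem hpow_of_check (hp7 : 7 ≤ p) (G : Fn p) (hrev : ∀ v, G v.reverse = G v)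
    (hlen : ∀ v, v.length ≠ 18 → G v = 0) (hE : ∀ i j, i ≠ j → Eop p i j G = 0)
    {ι : Type*} [LinearOrder ι] (b : ι → Module.End (ZMod p) (Fn p)) (deg : ι → ℕ)
    (hdeg : Monotone deg) (hb : ∀ i, b i ∈ LieD (ZMod p) (Xop p) (deg i))
    (hspan : ∀ d, 1 ≤ d → d ≤ 7 →
      KD (ZMod p) (Xop p) d ≤ Submodule.span (ZMod p) (b '' {i | deg i = d}))
    (hchk : ∀ c : Fin 6 → ι, Monotone c → (∀ i, 1 ≤ deg (c i)) → ∑ i, deg (c i) ≤ 18 →
      deg (c 5) ≤ deg (c 4) + 1 →
      ∀ v : List (Fin 3), 2 * v.length + ∑ i, deg (c i) ≤ 18 → ∀ u : List (Fin 3),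
        u.length + ∑ i, deg (c i) + v.length = 18 →
        (Sy 6 (fun i => b (c i)) ((v.map (Xop p)).prod G)) u = 0) :
    ∀ z ∈ lieSum (LieD (ZMod p) (Xop p)), (z ^ 6) G = 0 := by
  intro z hz
  have hn : ∀ m : ℕ, 1 ≤ m → m ≤ 6 → (m : ZMod p) ≠ 0 := by
    intro m h1 h2 h3
    rw [ZMod.natCast_eq_zero_iff] at h3
    have := Nat.le_of_dvd (by omega) h3
    omega
  have hfac : ((Nat.factorial 6 : ℕ) : ZMod p) ≠ 0 := by
    rw [Ne, ZMod.natCast_eq_zero_iff, (Fact.out : p.Prime).dvd_factorial]
    omega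
  apply IF_apply
  refine pow_mem_of_Sy (Xop p) (IF G) 6 hfac ?_ z hz
  refine red_main (Xop p) (fun i j => Dop p i j) (fun i j _ a b => Dop_mul i j a b)
    (fun i j _ k => Dop_X i j k) (IF G) (fun k r hr => IF_ad k hr)
    (fun i j hij r hr => IF_D i j (hE i j hij) hr) 6 (by norm_num) hn 18 ?_ ?_
  · intro d h1 hN hb' l hl
    refine base_of_sorted (Xop p) (IF G) b deg hdeg hspan ?_ d h1 hN hb' l hl
    intro c hc hc1 hc2 hc3
    have h2 : ∀ i, ∃ a ∈ LieD (ZMod p) (FreeAlgebra.ι (ZMod p) : Fin 3 → _) (deg (c i)),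
        ev p a = b (c i) :=
      fun i => LieD_map (ev p) _ (Xop p) (fun k => ev_ι k) (deg (c i)) _ (hb (c i))
    choose a ha hab using h2
    have h3 : ev p (Sy 6 a) = Sy 6 (fun i => b (c i)) := by
      rw [Sy_map]
      congr 1
      funext i
      exact hab i
    rw [← h3]
    refine mem_IF_of_half G 18 hrev hlen (∑ i, deg (c i)) (Sy 6 a)
      (Sy_homog 6 _ a (fun i => LieD_homog _ (ha i))) (∏ i, (-1 : ZMod p) ^ (deg (c i) + 1)) ?_ ?_
    · rw [Sy_star, ← Sy_smul]
      congr 1
      funext i
      exact star_LieD _ _ (ha i)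
    · rw [h3]
      exact hchk c hc hc1 hc2 hc3
  · intro d h1 hN l hl
    have h2 : ∀ i, ∃ a ∈ LieD (ZMod p) (FreeAlgebra.ι (ZMod p) : Fin 3 → _) (d i),
        ev p a = l i :=
      fun i => LieD_map (ev p) _ (Xop p) (fun k => ev_ι k) (d i) _ (hl i)
    choose a ha hab using h2
    have h3 : ev p (Sy 6 a) = Sy 6 l := by
      rw [Sy_map]
      congr 1
      funext i
      exact hab i
    rw [← h3, mem_IF_iff]
    intro u b'
    exact ev_apply_eq_zero G 18 hlen (∑ i, d i) _ (Sy_homog 6 _ a (fun i => LieD_homog _ (ha i)))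
      u b' (by omega)

end words

end Pool.Agent.Work.MP_bde882_al.H93
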